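import Pool.Agent.H105.LAB.Defs

set_option autoImplicit false

/-!
# Linear arboricity of the blow-ups of graphs without short cycles and of Cayley graphs

`la` is the least number of linear forests whose union is the graph (`H931R3.LA.la`), `bl G (Fin m)`
is the blow-up `G[m]` of `G`: the graph on `V × Fin m` with `(u, a) ~ (v, b)` iff `u ~ v` in `G`.

A graph `P` on `X` is a blow-up of `G` with classes of size `m` iff there is `f : X → V` all whose
fibres have `m` elements with `x ~ y` in `P` iff `f x ~ f y` in `G`.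
-/

namespace Pool.Agent.Results.MP_0a041d_co.BlowUpsAllClassSizes

open H931R3.LA Pool.Agent.Q105.LAB Pool.Agent.W111.LAR Pool.Agent.H105.LAB

theorem result :
    -- (1) no short cycles: blow-ups with classes of any size
    (∀ (V X : Type) [Finite V] [Nonempty V] [Finite X] (G : SimpleGraph V) (P : SimpleGraph X)
      (f : X → V) (k m : ℕ), 1 ≤ k → 1 ≤ m → IsBlowUp G P f m →
      (∀ v, (G.neighborSet v).ncard = 2 * k) →
      (∀ (v : V) (c : G.Walk v v), c.IsCycle → 2 * k ≤ c.length) → LAC P (2 * k * m)) ∧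
    -- (2) Cayley graphs: blow-ups with classes of any size
    (∀ (Γ X : Type) [Group Γ] [Finite Γ] [Finite X] (S : Finset Γ) (G : SimpleGraph Γ)
      (P : SimpleGraph X) (f : X → Γ) (m : ℕ), 1 ≤ m → S.Nonempty → (1 : Γ) ∉ S →
      (∀ s ∈ S, s⁻¹ ∈ S) → (∀ s ∈ S, s * s ≠ 1) → ∑ s ∈ S, (1 : ℝ) / orderOf s ≤ 1 →
      (∀ g h, G.Adj g h ↔ g⁻¹ * h ∈ S) → IsBlowUp G P f m → LAC P (S.card * m)) := by
  refine ⟨?_, ?_⟩
  · intro V X _ _ _ G P f k m hk hm hP hG hcyc
    have hs := small_of_blow hP
    have h1 := cov_fibres (RelEmbedding.refl _) f hs.1 hs.2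
      (cov_long G k m hm (fun v => (hG v).le) hcyc)
    refine lac_of (by omega) hm hP hG ?_
    have h2 : (2 * k * m + 2) / 2 = m * k + 1 := by
      have : 2 * k * m + 2 = 2 * (m * k + 1) := by ring
      rw [this, Nat.mul_div_cancel_left _ (by norm_num)]
    rw [h2]
    exact h1
  · intro Γ X _ _ _ S G P f m hm hS hone hinv hno hsum hG hP
    classical
    have := Fintype.ofFinite Γ
    have hs := small_of_blow hP
    have h1 := cov_fibres (RelEmbedding.refl _) f hs.1 hs.2
      (cov_cay S hone hinv hno hsum G hG hm)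
    refine lac_of (Finset.card_pos.2 hS) hm hP (cay_deg S G hG) ?_
    obtain ⟨T, _, _, hT, _⟩ := halve S hinv hno
    have h2 : (S.card * m + 2) / 2 = m * (S.card / 2) + 1 := by
      rw [hT, Nat.mul_div_cancel_left _ (by norm_num)]
      have : 2 * T.card * m + 2 = 2 * (m * T.card + 1) := by ring
      rw [this, Nat.mul_div_cancel_left _ (by norm_num)]
    rw [h2]
    exact h1

end Pool.Agent.Results.MP_0a041d_co.BlowUpsAllClassSizes
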