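import Pool.Agent.H105.LAB.Defs

set_option autoImplicit false

/-!
# Linear arboricity of blow-ups with large classes

`la` is the least number of linear forests whose union is the graph (`H931R3.LA.la`), `bl G (Fin m)`
is the blow-up `G[m]` of `G`: the graph on `V × Fin m` with `(u, a) ~ (v, b)` iff `u ~ v` in `G`.

A graph `P` on `X` is a blow-up of `G` with classes of size `m` iff there is `f : X → V` all whose
fibres have `m` elements with `x ~ y` in `P` iff `f x ~ f y` in `G`.
-/

namespace Pool.Agent.Results.MP_0a041d_co.BlowUpsLargeClasses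

open H931R3.LA Pool.Agent.Q105.LAB Pool.Agent.W111.LAR Pool.Agent.H105.LAB

theorem result :
    -- (1) la (G[m]) is an invariant of edge colourings of the multigraph m² G
    (∀ (V : Type) [Fintype V] (G : SimpleGraph V) [DecidableRel G.Adj] (m K : ℕ), 1 ≤ m →
      (la (bl G (Fin m)) ≤ K ↔ ∃ N : Fin K → V → V → ℕ,
        (∀ j u v, N j u v = N j v u) ∧
        (∀ u v, ∑ j, N j u v = if G.Adj u v then m ^ 2 else 0) ∧
        (∀ j u, ∑ v, N j u v ≤ 2 * m) ∧
        ∀ (j : Fin K) (C : Set V), C.Nonempty → (∀ u ∈ C, ∀ v, 0 < N j u v → v ∈ C) →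
          ∃ u ∈ C, ∑ v, N j u v < 2 * m)) ∧
    -- (2) the linear arboricity conjecture for blow-ups, all degrees
    (∀ (V X : Type) [Finite V] [Nonempty V] [Finite X] (G : SimpleGraph V) (P : SimpleGraph X)
      (f : X → V) (r m : ℕ), Adm r m → IsBlowUp G P f m →
      (∀ v, (G.neighborSet v).ncard = r) → LAC P (r * m)) ∧
    -- (3) the upper bound for graphs with a homomorphism with small fibres
    (∀ (V X : Type) [Finite V] [Finite X] (G : SimpleGraph V) (P : SimpleGraph X)
      (f : X → V) (r m : ℕ), Adm r m → SmallHom G P f m →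
      (∀ v, (G.neighborSet v).ncard ≤ r) → la P ≤ (r * m + 2) / 2) ∧
    -- (4) general bounds for larger degrees
    (∀ (V X : Type) [Finite V] [Finite X] (G : SimpleGraph V) (P : SimpleGraph X)
      (f : X → V) (k m : ℕ), 2 ≤ m → SmallHom G P f m →
      (∀ v, (G.neighborSet v).ncard ≤ 2 * k) → la P ≤ m * k + (k + 2 * m - 1) / (2 * m)) ∧
    (∀ (V X : Type) [Finite V] [Finite X] (G : SimpleGraph V) (P : SimpleGraph X)
      (f : X → V) (r m : ℕ), 1 ≤ m → SmallHom G P f (2 * m) →
      (∀ v, (G.neighborSet v).ncard ≤ r) → la P ≤ r * m + (r + 4 * m - 1) / (4 * m)) := by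
  refine ⟨?_, ?_, ?_, ?_, ?_⟩
  · intro V _ G _ m K hm
    rw [la_le_iff]
    exact ⟨fun h => good_of_cov G hm h, fun ⟨N, hN⟩ => cov_of_good G hm hN⟩
  · intro V X _ _ _ G P f r m hrm hP hG
    have hm : 1 ≤ m := by
      obtain ⟨h1, h2 | h2 | h2⟩ := hrm <;> omega
    have hs := small_of_blow hP
    exact lac_of hrm.1 hm hP hG (bound_lac G P f r m hrm.1 hrm.2 (fun v => (hG v).le) hs.1 hs.2)
  · intro V X _ _ G P f r m hrm hP hG
    exact la_le (bound_lac G P f r m hrm.1 hrm.2 hG hP.1 hP.2)
  · intro V X _ _ G P f k m hm hP hG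
    refine la_le (bound_even G P f k m _ hm ?_ hG hP.1 hP.2)
    have h1 := Nat.div_add_mod (k + 2 * m - 1) (2 * m)
    have h2 := Nat.mod_lt (k + 2 * m - 1) (by omega : 0 < 2 * m)
    omega
  · intro V X _ _ G P f r m hm hP hG
    refine la_le (bound_any G P f r m _ hm ?_ hG hP.1 hP.2)
    have h1 := Nat.div_add_mod (r + 4 * m - 1) (4 * m)
    have h2 := Nat.mod_lt (r + 4 * m - 1) (by omega : 0 < 4 * m)
    have h3 : 2 * (2 * m) = 4 * m := by ring
    rw [h3]
    omega

end Pool.Agent.Results.MP_0a041d_co.BlowUpsLargeClasses
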