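import Pool.Agent.Q126.LAM

set_option autoImplicit false

/-!
# Linear arboricity of many-fold covers, tensor products and blow-ups

`H931R3.LA.la G` is the linear arboricity (the same expression as in the frozen statement S07085).
A map `f : V → W` from the vertices of a graph `B` to the vertices of a graph `G` which sends edges
to edges and such that every vertex `u` of `B` has at most `m` neighbours in every class `f ⁻¹ j` is
an `m`-fold cover (`m = 1`: a locally injective homomorphism).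
-/

namespace Pool.Agent.Results.MP_0a041d_co.ManyFoldCovers

open SimpleGraph H931R3.LA Pool.Agent.W111.LAR Pool.Agent.Q126.LAM

theorem cover_regular {V W : Type} [Finite V] [Finite W] [Nonempty V] (B : SimpleGraph V)
    (G : SimpleGraph W) (f : V → W) (k m : ℕ) (hk : 0 < k) (hm0 : 0 < m)
    (hdeg : ∀ w, (G.neighborSet w).ncard ≤ 2 * k)
    (hcyc : ∀ (w : W) (c : G.Walk w w), c.IsCycle → 2 * (m * k) ≤ c.length)
    (hom : ∀ u v, B.Adj u v → G.Adj (f u) (f v))
    (hm : ∀ u j, {v | B.Adj u v ∧ f v = j}.ncard ≤ m)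
    (hreg : ∀ v, (B.neighborSet v).ncard = 2 * (m * k)) : la B = (2 * (m * k) + 2) / 2 := by
  have hpos : 0 < m * k := Nat.mul_pos hm0 hk
  have h1 := cov_fold B G f k m (m * k) hpos hdeg hcyc hom hm
  have h2 : (m * k + m * k - 1) / (m * k) = 1 := by
    rw [Nat.div_eq_of_lt_le] <;> omega
  rw [h2] at h1
  refine la_eq_of_cov (by omega) hreg ?_
  have h3 : (2 * (m * k) + 2) / 2 = m * k + 1 := by omega
  rw [h3]
  exact h1

/-- **Linear arboricity of many-fold covers.**
(1) Let `B` be an `m`-fold cover of a graph `G` of maximum degree at most `2 k` all of whose cycles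
have length at least `2 l`. Then `la B ≤ m k + ⌈m k / l⌉`.
(2) If `B` is regular of degree `r = 2 m k` and the cycles of `G` have length at least `r`, then
`la B = ⌈(r + 1) / 2⌉`.
(3) Tensor products `P = G × H`: `G` is `2 k`-regular with all cycles of length at least `r = 2 m k`
and `H` is any `m`-regular graph.
(4) Blow-ups: every vertex of `G` as in (3) is replaced by `m` independent vertices.
(5) `m`-fold covers of Cayley graphs `G` without involutions in the connection set `S` such that the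
reciprocals of the orders of the elements of `S` sum up to at most `1 / m`. -/
theorem result :
    (∀ (V W : Type) [Finite V] [Finite W] (B : SimpleGraph V) (G : SimpleGraph W) (f : V → W)
      (k m l : ℕ), 1 ≤ l → (∀ w, (G.neighborSet w).ncard ≤ 2 * k) →
      (∀ (w : W) (c : G.Walk w w), c.IsCycle → 2 * l ≤ c.length) →
      (∀ u v, B.Adj u v → G.Adj (f u) (f v)) →
      (∀ u j, {v | B.Adj u v ∧ f v = j}.ncard ≤ m) →
      la B ≤ m * k + (m * k + l - 1) / l) ∧
    (∀ (V W : Type) [Finite V] [Finite W] [Nonempty V] (B : SimpleGraph V) (G : SimpleGraph W)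
      (f : V → W) (k m : ℕ), 0 < k → 0 < m → (∀ w, (G.neighborSet w).ncard ≤ 2 * k) →
      (∀ (w : W) (c : G.Walk w w), c.IsCycle → 2 * (m * k) ≤ c.length) →
      (∀ u v, B.Adj u v → G.Adj (f u) (f v)) →
      (∀ u j, {v | B.Adj u v ∧ f v = j}.ncard ≤ m) →
      (∀ v, (B.neighborSet v).ncard = 2 * (m * k)) → la B = (2 * (m * k) + 2) / 2) ∧
    (∀ (V W : Type) [Finite V] [Finite W] [Nonempty V] [Nonempty W] (G : SimpleGraph V)
      (H : SimpleGraph W) (P : SimpleGraph (V × W)) (k m : ℕ), 0 < k → 0 < m →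
      (∀ x y, P.Adj x y ↔ G.Adj x.1 y.1 ∧ H.Adj x.2 y.2) →
      (∀ v, (G.neighborSet v).ncard = 2 * k) → (∀ w, (H.neighborSet w).ncard = m) →
      (∀ (v : V) (c : G.Walk v v), c.IsCycle → 2 * (m * k) ≤ c.length) →
      (∀ x, (P.neighborSet x).ncard = 2 * (m * k)) ∧ la P = (2 * (m * k) + 2) / 2) ∧
    (∀ (V : Type) [Finite V] [Nonempty V] (G : SimpleGraph V) (k m : ℕ)
      (B : SimpleGraph (V × Fin m)), 0 < k → 0 < m → (∀ x y, B.Adj x y ↔ G.Adj x.1 y.1) →
      (∀ v, (G.neighborSet v).ncard = 2 * k) →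
      (∀ (v : V) (c : G.Walk v v), c.IsCycle → 2 * (m * k) ≤ c.length) →
      (∀ x, (B.neighborSet x).ncard = 2 * (m * k)) ∧ la B = (2 * (m * k) + 2) / 2) ∧
    (∀ (V Γ : Type) [Group Γ] [Finite Γ] [Finite V] (S : Finset Γ) (G : SimpleGraph Γ)
      (B : SimpleGraph V) (f : V → Γ) (m : ℕ), 0 < m →
      (∀ g h, G.Adj g h ↔ g⁻¹ * h ∈ S) → S.Nonempty → (∀ s ∈ S, s * s ≠ 1) →
      ∑ s ∈ S, (m : ℝ) / orderOf s ≤ 1 →
      (∀ u v, B.Adj u v → G.Adj (f u) (f v)) →
      (∀ u j, {v | B.Adj u v ∧ f v = j}.ncard ≤ m) →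
      la B ≤ (m * S.card + 2) / 2 ∧
      (Nonempty V → (∀ v, (B.neighborSet v).ncard = m * S.card) →
        la B = (m * S.card + 2) / 2)) := by
  refine ⟨?_, ?_, ?_, ?_, ?_⟩
  · intro V W _ _ B G f k m l hl hdeg hcyc hom hm
    exact la_le (cov_fold B G f k m l hl hdeg hcyc hom hm)
  · intro V W _ _ _ B G f k m hk hm0 hdeg hcyc hom hm hreg
    exact cover_regular B G f k m hk hm0 hdeg hcyc hom hm hreg
  · intro V W _ _ _ _ G H P k m hk hm0 hP hG hH hcyc
    have hN : ∀ x, P.neighborSet x = G.neighborSet x.1 ×ˢ H.neighborSet x.2 := by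
      intro x
      ext y
      rw [mem_neighborSet, hP]
      exact Iff.rfl
    have hreg : ∀ x, (P.neighborSet x).ncard = 2 * (m * k) := by
      intro x
      rw [hN, Set.ncard_prod, hG, hH]
      ring
    refine ⟨hreg, cover_regular P G Prod.fst k m hk hm0 (fun w => (hG w).le) hcyc
      (fun u v h => ((hP u v).1 h).1) ?_ hreg⟩
    intro u j
    have h1 : {v | P.Adj u v ∧ v.1 = j} ⊆ (fun w => (j, w)) '' H.neighborSet u.2 := by
      rintro ⟨a, b⟩ ⟨h, rfl⟩
      exact ⟨b, ((hP _ _).1 h).2, rfl⟩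
    refine (Set.ncard_le_ncard h1 (Set.toFinite _)).trans ?_
    rw [Set.ncard_image_of_injective _ (fun a b hab => (Prod.mk.inj hab).2), hH]
  · intro V _ _ G k m B hk hm0 hB hG hcyc
    have : Nonempty (Fin m) := ⟨⟨0, hm0⟩⟩
    have hN : ∀ x, B.neighborSet x = G.neighborSet x.1 ×ˢ (Set.univ : Set (Fin m)) := by
      intro x
      ext y
      rw [mem_neighborSet, hB]
      exact ⟨fun h => ⟨h, Set.mem_univ _⟩, fun h => h.1⟩
    have hreg : ∀ x, (B.neighborSet x).ncard = 2 * (m * k) := by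
      intro x
      rw [hN, Set.ncard_prod, hG, Set.ncard_univ, Nat.card_eq_fintype_card, Fintype.card_fin]
      ring
    refine ⟨hreg, cover_regular B G Prod.fst k m hk hm0 (fun w => (hG w).le) hcyc
      (fun u v h => (hB u v).1 h) ?_ hreg⟩
    intro u j
    have h1 : {v | B.Adj u v ∧ v.1 = j} ⊆ (fun w => (j, w)) '' (Set.univ : Set (Fin m)) := by
      rintro ⟨a, b⟩ ⟨h, rfl⟩
      exact ⟨b, Set.mem_univ _, rfl⟩
    refine (Set.ncard_le_ncard h1 (Set.toFinite _)).trans ?_
    rw [Set.ncard_image_of_injective _ (fun a b hab => (Prod.mk.inj hab).2), Set.ncard_univ,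
      Nat.card_eq_fintype_card, Fintype.card_fin]
  · intro V Γ _ _ _ S G B f m hm0 hG hne hno hsum hom hm
    have hinv : ∀ s ∈ S, s⁻¹ ∈ S := by
      intro s hs
      have h1 : G.Adj 1 s := (hG 1 s).2 (by simpa using hs)
      have h2 := (hG s 1).1 h1.symm
      simpa using h2
    have hone : (1 : Γ) ∉ S := by
      intro h
      exact G.irrefl ((hG 1 1).2 (by simpa using h))
    have h1 := cov_cay S hone hinv hno m hsum G hG B f hom hm
    have h2 : (m * S.card + 2) / 2 = m * S.card / 2 + 1 := by omega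
    rw [← h2] at h1
    refine ⟨la_le h1, fun hV hreg => ?_⟩
    exact la_eq_of_cov (Nat.mul_pos hm0 hne.card_pos) hreg h1

end Pool.Agent.Results.MP_0a041d_co.ManyFoldCovers
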